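import Pool.Agent.Helper35_XQ.Stmt

/-!
Squad XQ (MP_5b0138_an), Part A2, module SYM: invariance of the kernels with words under isometries
which permute the sides.
-/

set_option autoImplicit false

namespace Pool.Agent.XQ.GI.H7

open MeasureTheory Complex Filter Topology Pool.Agent.H62T Pool.Agent.H60K
open scoped ENNReal NNReal

theorem mp (g : ℂ ≃ᵢ ℂ) : MeasurePreserving g volume volume := by
  have h1 : ∀ z, g z = g.toRealLinearIsometryEquiv z + g 0 := by
    intro z
    rw [IsometryEquiv.toRealLinearIsometryEquiv_apply]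
    ring
  have h2 : MeasurePreserving (fun z => g.toRealLinearIsometryEquiv z + g 0) volume volume :=
    (measurePreserving_add_right volume (g 0)).comp
      (LinearIsometryEquiv.measurePreserving g.toRealLinearIsometryEquiv)
  have h3 : (g : ℂ → ℂ) = fun z => g.toRealLinearIsometryEquiv z + g 0 := funext h1
  rw [h3]
  exact h2

theorem integral_isom (g : ℂ ≃ᵢ ℂ) (f : ℂ → ℝ) : ∫ z, f z = ∫ z, f (g z) :=
  ((mp g).integral_comp g.toHomeomorph.measurableEmbedding f).symm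

theorem pw3_mul (σ τ : Equiv.Perm (Fin 3)) (w : Wd) : pw3 (σ * τ) w = pw3 σ (pw3 τ w) := by
  unfold pw3
  ext1
  simp [List.map_map, Function.comp_def]

theorem pw3_one (w : Wd) : pw3 1 w = w := by
  unfold pw3
  ext1
  simp

theorem pw3_inv (σ : Equiv.Perm (Fin 3)) (w : Wd) : pw3 σ (pw3 σ⁻¹ w) = w := by
  rw [← pw3_mul, mul_inv_cancel, pw3_one]

theorem inv_pw3 (σ : Equiv.Perm (Fin 3)) (w : Wd) : pw3 σ⁻¹ (pw3 σ w) = w := by
  rw [← pw3_mul, inv_mul_cancel, pw3_one]

theorem pl_comp (σ : Equiv.Perm (Fin 3)) (f g : Lb) :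
    pl σ (fun w => g (f w)) = fun w => pl σ g (pl σ f w) := by
  funext w
  unfold pl
  rw [inv_pw3]

theorem inv_pl (σ : Equiv.Perm (Fin 3)) (f : Lb) : pl σ⁻¹ (pl σ f) = f := by
  funext w
  unfold pl
  rw [inv_inv, inv_pw3, inv_pw3]

theorem pl_inv (σ : Equiv.Perm (Fin 3)) (f : Lb) : pl σ (pl σ⁻¹ f) = f := by
  funext w
  unfold pl
  rw [inv_inv, pw3_inv, pw3_inv]

theorem pl_inj (σ : Equiv.Perm (Fin 3)) : Function.Injective (pl σ) :=
  Function.LeftInverse.injective (inv_pl σ)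

/-- the action on labels as an equivalence -/
noncomputable def plE (σ : Equiv.Perm (Fin 3)) : Lb ≃ Lb :=
  ⟨pl σ, pl σ⁻¹, inv_pl σ, pl_inv σ⟩

theorem rd_sym {u : Fin 3 → ℂ} {h : Fin 3 → ℝ} {σ : Equiv.Perm (Fin 3)} {g : ℂ ≃ᵢ ℂ}
    (hg : ∀ s x, h s ≤ ip (u s) (g x) ↔ h (σ s) ≤ ip (u (σ s)) x) (x : ℂ) (w : Wd) :
    rd (lb u h x) (pw3 σ w) = pw3 σ (rd (lb u h (g x)) w) := by
  classical
  unfold rd pw3
  ext1
  simp only
  rw [List.dropWhile_map]
  congr 2
  funext s
  simp only [Function.comp_apply, decide_eq_decide]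
  unfold lb
  simp only [Finset.mem_filter, Finset.mem_univ, true_and]
  exact (hg s x).symm

theorem KF_sym {u : Fin 3 → ℂ} {h : Fin 3 → ℝ} {σ : Equiv.Perm (Fin 3)} {g : ℂ ≃ᵢ ℂ}
    (hg : ∀ s x, h s ≤ ip (u s) (g x) ↔ h (σ s) ≤ ip (u (σ s)) x) :
    ∀ (m : ℕ) (f : Lb) (t : ℝ) (x y : ℂ), KF u h m f t (g x) (g y) = KF u h m (pl σ f) t x y := by
  classical
  intro m
  induction m with
  | zero =>
    intro f t x y
    unfold KF
    have h1 : (fun w => rd (lb u h y) (rd (lb u h x) w))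
        = pl σ (fun w => rd (lb u h (g y)) (rd (lb u h (g x)) w)) := by
      funext w
      unfold pl
      rw [← rd_sym hg y, ← rd_sym hg x, pw3_inv]
    rw [h1]
    have h2 : G t (g x - g y) = G t (x - y) := by
      unfold G
      have : ‖g x - g y‖ = ‖x - y‖ := by
        rw [← dist_eq_norm, ← dist_eq_norm, g.dist_eq]
      rw [this]
    rw [h2]
    by_cases hf : f = (fun w => rd (lb u h (g y)) (rd (lb u h (g x)) w))
    · rw [if_pos hf, if_pos (congrArg (pl σ) hf)]
    · rw [if_neg hf, if_neg (fun h => hf (pl_inj σ h))]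
  | succ m ih =>
    intro f t x y
    unfold KF
    refine Fintype.sum_equiv (plE σ) _ _ fun f₁ => ?_
    refine Fintype.sum_equiv (plE σ) _ _ fun f₂ => ?_
    change _ = if pl σ f = (fun w => pl σ f₂ (pl σ f₁ w)) then
      ∫ z, KF u h m (pl σ f₁) (t / 2) x z * KF u h m (pl σ f₂) (t / 2) z y else 0
    rw [← pl_comp]
    have h3 : (∫ z, KF u h m f₁ (t / 2) (g x) z * KF u h m f₂ (t / 2) z (g y))
        = ∫ z, KF u h m (pl σ f₁) (t / 2) x z * KF u h m (pl σ f₂) (t / 2) z y := by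
      rw [integral_isom g]
      refine integral_congr_ae (Eventually.of_forall fun z => ?_)
      change KF u h m f₁ (t / 2) (g x) (g z) * KF u h m f₂ (t / 2) (g z) (g y) = _
      rw [ih, ih]
    rw [h3]
    by_cases hf : f = fun w => f₂ (f₁ w)
    · rw [if_pos hf, if_pos (congrArg (pl σ) hf)]
    · rw [if_neg hf, if_neg (fun h => hf (pl_inj σ h))]

/-- SYM -/
theorem sym : SymStatement := by
  intro u h σ g hg f t x y ht
  unfold KO
  rw [if_pos ht, if_pos ht]
  congr 1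
  funext m
  exact KF_sym hg m f t x y


end Pool.Agent.XQ.GI.H7
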