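import Pool.Agent.Helper36_XQ.Stmt4

/-!
Squad XQ (MP_5b0138_an), part A4, module MN4: three arcs, main theorem.
-/

set_option autoImplicit false

namespace Pool.Agent.XQ.K4.H7

open MeasureTheory Complex Filter Topology ProbabilityTheory Pool.Agent.H16Iso Pool.Agent.H62T
  Pool.Agent.H16F Pool.Agent.H38KL Pool.Agent.AEU
open scoped ENNReal NNReal

theorem er_mono {C C' m t : ℝ} {p p' : ℕ} (hC : C ≤ C') (hC' : 0 ≤ C') (hp : p ≤ p')
    (ht : 0 < t) : Er C p m t ≤ Er C' p' m t := by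
  unfold Er
  refine ENNReal.ofReal_le_ofReal ?_
  refine mul_le_mul_of_nonneg_right ?_ (Real.exp_pos _).le
  refine div_le_div_of_nonneg_right ?_ ht.le
  calc C * (1 + t) ^ p ≤ C' * (1 + t) ^ p := mul_le_mul_of_nonneg_right hC (by positivity)
    _ ≤ C' * (1 + t) ^ p' :=
        mul_le_mul_of_nonneg_left (pow_le_pow_right₀ (by linarith) hp) hC'

theorem q3_le {W : ℝ → ℝ → ℝ → ℝ≥0∞} {t : ℝ} (ht : 0 < t) {c : ℝ≥0∞}
    (hW : ∀ s1 s2 : ℝ, 0 < s1 → 0 < s2 → s1 + s2 < t → W s1 s2 (t - s1 - s2) ≤ c) :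
    Q3 W t ≤ ENNReal.ofReal (t ^ 2) * c := by
  unfold Q3
  calc (∫⁻ s1 in Set.Ioo 0 t, ∫⁻ s2 in Set.Ioo 0 (t - s1), W s1 s2 (t - s1 - s2))
      ≤ ∫⁻ _ in Set.Ioo 0 t, ENNReal.ofReal t * c := by
        refine setLIntegral_mono' measurableSet_Ioo fun s1 hs1 => ?_
        calc (∫⁻ s2 in Set.Ioo 0 (t - s1), W s1 s2 (t - s1 - s2))
            ≤ ∫⁻ _ in Set.Ioo 0 (t - s1), c := by
              refine setLIntegral_mono' measurableSet_Ioo fun s2 hs2 => ?_
              exact hW s1 s2 hs1.1 hs2.1 (by linarith [hs2.2])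
          _ = c * ENNReal.ofReal (t - s1) := by
              rw [setLIntegral_const, Real.volume_Ioo, sub_zero]
          _ ≤ ENNReal.ofReal t * c := by
              rw [mul_comm]
              gcongr
              linarith [hs1.1]
    _ = ENNReal.ofReal (t ^ 2) * c := by
        rw [setLIntegral_const, Real.volume_Ioo, sub_zero, pow_two, ENNReal.ofReal_mul ht.le]
        ring

/-- MN4 -/
theorem mn4 (hupb : UpbStatement) (havg : AvgStatement) (hlow : LowStatement)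
    (hcnv : CnvStatement) (harc : ArcStatement) : Mn4Statement := by
  intro u h Mt Et M E S L l δ R q hu hS hS0 hMt hδ hR hL hLl hUp hLo hLc hP
  have hl : 0 < l := hL.trans hLl
  obtain ⟨ε, hε0, hε1, hεL⟩ : ∃ ε : ℝ, 0 < ε ∧ ε < 1 ∧ L ^ 2 < (1 - ε) * l ^ 2 := by
    have h1 : L ^ 2 < l ^ 2 := pow_lt_pow_left₀ hLl hL.le two_ne_zero
    have hl2 : 0 < l ^ 2 := by positivity
    have hL2 : 0 < L ^ 2 := by positivity
    refine ⟨(l ^ 2 - L ^ 2) / (2 * l ^ 2), by apply div_pos <;> linarith, ?_, ?_⟩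
    · rw [div_lt_one (by positivity)]
      linarith
    · have h2 : (1 - (l ^ 2 - L ^ 2) / (2 * l ^ 2)) * l ^ 2 = (l ^ 2 + L ^ 2) / 2 := by
        field_simp
        ring
      rw [h2]
      linarith
  obtain ⟨n, hn3, hn⟩ : ∃ n : ℕ, 3 ≤ n ∧ 2 * l ^ 2 ≤ δ ^ 2 * n := by
    obtain ⟨N, hN⟩ := exists_nat_ge (2 * l ^ 2 / δ ^ 2)
    refine ⟨max 3 N, le_max_left _ _, ?_⟩
    have h1 : (N : ℝ) ≤ ((max 3 N : ℕ) : ℝ) := by exact_mod_cast le_max_right 3 N
    have h2 : 2 * l ^ 2 / δ ^ 2 ≤ ((max 3 N : ℕ) : ℝ) := hN.trans h1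
    rw [div_le_iff₀ (by positivity)] at h2
    linarith
  have : NeZero n := ⟨by omega⟩
  obtain ⟨hU1, C2, p2, hU2⟩ := hupb u h Mt Et M E S δ l R ε hu hS hδ hl hR hε0 hUp hLc
  obtain ⟨C1, p1, hU1⟩ := hU1 n hn
  obtain ⟨C3, p3, hlo⟩ := hlow u h Mt Et M E S δ l R ε hu hS hS0 hMt hδ hl hR hε0 hLo
  obtain ⟨Ca, hCa, hA⟩ := havg n hn3
  obtain ⟨mW, mQ, mV, -⟩ := hcnv u h M E S 1 hu one_pos hS
  set C : ℝ := |C1| + |C2| + |C3| + Ca with hC
  set p : ℕ := p1 + p2 + p3 with hp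
  have hC0 : 0 ≤ C := by positivity
  have c1 : C1 ≤ C := by
    have := le_abs_self C1
    have := abs_nonneg C2
    have := abs_nonneg C3
    linarith
  have c2 : C2 ≤ C := by
    have := le_abs_self C2
    have := abs_nonneg C1
    have := abs_nonneg C3
    linarith
  have c3 : C3 ≤ C := by
    have := le_abs_self C3
    have := abs_nonneg C1
    have := abs_nonneg C2
    linarith
  have ca : Ca ≤ C := by
    have := abs_nonneg C1
    have := abs_nonneg C2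
    have := abs_nonneg C3
    linarith
  refine harc (Vt u h Mt Et) (Q3 (W3 u h M E S)) (P3 u h M E S) C 1 ((1 - ε) * l ^ 2)
    ((1 - ε) * (1 / R) ^ 2) L q p (mV Mt Et) mQ one_pos hL hεL ?_ ?_ ?_ ?_ ?_ hP
  · have : 0 < 1 - ε := by linarith
    positivity
  · intro t ht
    have h1 := hA (W3 u h M E S) mW t (Vt u h Mt Et t) (Er C1 p1 ((1 - ε) * l ^ 2) t) ht
      (fun τ h1 h2 h3 => by
        have h4 := hU1 τ h1 (fun j => by rw [h3]; exact h2 j)
        rwa [h3] at h4)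
    refine h1.trans (add_le_add ?_ (er_mono c1 hC0 (by omega) ht))
    gcongr
  · intro t ht
    have h1 : Q3 (W3 u h M E S) t ≤ ENNReal.ofReal (t ^ 2) *
        (Vt u h Mt Et t + Er C3 p3 ((1 - ε) * l ^ 2) t) := by
      refine q3_le ht fun s1 s2 h1 h2 h3 => ?_
      have h4 := hlo s1 s2 (t - s1 - s2) h1 h2 (by linarith)
      have h5 : s1 + s2 + (t - s1 - s2) = t := by ring
      rwa [h5] at h4
    calc ENNReal.ofReal (1 / t ^ 2) * Q3 (W3 u h M E S) t
        ≤ ENNReal.ofReal (1 / t ^ 2) * (ENNReal.ofReal (t ^ 2) *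
          (Vt u h Mt Et t + Er C3 p3 ((1 - ε) * l ^ 2) t)) := by gcongr
      _ = Vt u h Mt Et t + Er C3 p3 ((1 - ε) * l ^ 2) t := by
          rw [← mul_assoc, ← ENNReal.ofReal_mul (by positivity),
            div_mul_cancel₀ _ (by positivity : t ^ 2 ≠ 0), ENNReal.ofReal_one, one_mul]
      _ ≤ _ := add_le_add le_rfl (er_mono c3 hC0 (by omega) ht)
  · intro t ht
    exact (hU2 t ht).trans (er_mono c2 hC0 (by omega) ht)
  · intro κ hκ
    exact (hcnv u h M E S κ hu hκ hS).2.2.2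

end Pool.Agent.XQ.K4.H7
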