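import Pool.Agent.Helper36_XQ.Stmt5r

/-!
Squad XQ (MP_5b0138_an), part E4, module RMA: masses as integrals of chain sums.
Model: `Pool.Agent.Helper20_AEU3.RefMass` (helper20).
-/

set_option autoImplicit false

namespace Pool.Agent.XQ.K4.H7

open MeasureTheory Complex Filter Topology ProbabilityTheory Pool.Agent.H16Iso Pool.Agent.H62T
  Pool.Agent.H16F Pool.Agent.H38KL Pool.Agent.AEU
open scoped ENNReal NNReal

variable (u : Fin 4 → ℂ) (h : Fin 4 → ℝ)

theorem Cs_meas {m : ℕ} (R : (Fin (m + 1) → Finset (Fin 4)) → Prop) (τ : Fin (m + 1) → ℝ) :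
    Measurable fun p : ℂ × ℂ => Cs u h R τ p.1 p.2 := by
  classical
  unfold Cs
  refine Finset.measurable_fun_sum _ fun A _ => ?_
  by_cases hR : R A
  · simp only [if_pos hR]
    have hm : Measurable fun p : (ℂ × ℂ) × (Fin m → ℂ) => cw u h τ A p.1.1 p.2 p.1.2 :=
      cw_meas_comp u h τ A (measurable_fst.comp measurable_fst) measurable_snd
        (measurable_snd.comp measurable_fst)
    exact hm.lintegral_prod_right'
  · simp only [if_neg hR]
    exact measurable_const

theorem Cs_vis {m : ℕ} (O E : Finset (Fin 4)) (τ : Fin (m + 1) → ℝ) (hτ : ∀ j, 0 < τ j)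
    (x y : ℂ) : Cs u h (Vis O E) τ x y = ENNReal.ofReal (kME u h O E (∑ j, τ j) x y) := by
  classical
  have hpos : 0 < ∑ j, τ j := Finset.sum_pos (fun j _ => hτ _) Finset.univ_nonempty
  unfold Cs
  rw [kME_eq u h, ENNReal.ofReal_sum_of_nonneg fun A _ => kA_nonneg u h hpos x y A]
  simp only [chain u h m τ hτ]
  rw [Finset.sum_comm]
  refine Finset.sum_congr rfl fun A _ => ?_
  rw [Finset.sum_ite_eq]
  exact if_congr (vis_iff O E A) rfl rfl

/-- kernel of all paths -/
theorem sum_all {t : ℝ} (ht : 0 < t) (x y : ℂ) :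
    ∑ a : Finset (Fin 4), ENNReal.ofReal (kA u h a t x y) = ENNReal.ofReal (G t (x - y)) := by
  rw [← ENNReal.ofReal_sum_of_nonneg fun A _ => kA_nonneg u h ht x y A]
  congr 1
  have h1 := pB_eq u h ∅ t x y
  have h2 : pB u h ∅ t x y = G t (x - y) := by
    unfold pB
    have : Dm u h ∅ = Set.univ := by
      ext x
      simp [Dm]
    rw [this]
    exact H60K.H44.uni t x y ht
  rw [h2] at h1
  rw [h1]
  refine Finset.sum_congr ?_ fun _ _ => rfl
  ext a
  simp

theorem cons_meas {m : ℕ} {α : Type*} [MeasurableSpace α] {f : α → ℂ} {g : α → Fin m → ℂ}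
    (hf : Measurable f) (hg : Measurable g) :
    Measurable fun a => (Fin.cons (f a) (g a) : Fin (m + 1) → ℂ) := by
  rw [measurable_pi_iff]
  intro j
  refine Fin.cases ?_ (fun i => ?_) j
  · simp only [Fin.cons_zero]
    exact hf
  · simp only [Fin.cons_succ]
    exact (measurable_pi_apply i).comp hg

theorem lint_two {m : ℕ} (F : (Fin (m + 2) → ℂ) → ℝ≥0∞) (hF : Measurable F) :
    ∫⁻ x, F x = ∫⁻ p : ℂ × ℂ, ∫⁻ z : Fin m → ℂ, F (Fin.cons p.1 (Fin.cons p.2 z)) := by
  rw [lint_cons F hF]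
  have h1 : ∀ x0 : ℂ, ∫⁻ z : Fin (m + 1) → ℂ, F (Fin.cons x0 z)
      = ∫⁻ x1 : ℂ, ∫⁻ z : Fin m → ℂ, F (Fin.cons x0 (Fin.cons x1 z)) := fun x0 =>
    lint_cons (fun z => F (Fin.cons x0 z)) (hF.comp (cons_meas measurable_const measurable_id))
  simp only [h1]
  have hm : Measurable fun q : (ℂ × ℂ) × (Fin m → ℂ) =>
      F (Fin.cons q.1.1 (Fin.cons q.1.2 q.2)) :=
    hF.comp (cons_meas (measurable_fst.comp measurable_fst)
      (cons_meas (measurable_snd.comp measurable_fst) measurable_snd))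
  have h2 := lintegral_prod (μ := (volume : Measure ℂ)) (ν := (volume : Measure ℂ))
    (fun p : ℂ × ℂ => ∫⁻ z : Fin m → ℂ, F (Fin.cons p.1 (Fin.cons p.2 z)))
    hm.lintegral_prod_right'.aemeasurable
  exact h2.symm

theorem wt_cons {m : ℕ} (τ : Fin (m + 2) → ℝ) (hτ : ∀ j, 0 < τ j) (a : Finset (Fin 4))
    (A : Fin (m + 1) → Finset (Fin 4)) (x0 x1 : ℂ) (z : Fin m → ℂ) :
    ENNReal.ofReal (wt u h τ (Fin.cons x0 (Fin.cons x1 z) : Fin (m + 2) → ℂ) (Fin.cons a A))
      = ENNReal.ofReal (kA u h a (τ 0) x0 x1) * cw u h (fun j => τ j.succ) A x1 z x0 := by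
  rw [← cw_succ, cw_cyc u h τ hτ]

theorem erase_zero (m : ℕ) : (Finset.univ : Finset (Fin (m + 2))).erase 0
    = (Finset.univ : Finset (Fin (m + 1))).map (Fin.succEmb (m + 1)) := by
  ext j
  rw [Finset.mem_erase, Finset.mem_map]
  constructor
  · rintro ⟨hj, -⟩
    obtain ⟨i, hi⟩ := Fin.exists_succ_eq.mpr hj
    exact ⟨i, Finset.mem_univ _, hi⟩
  · rintro ⟨i, -, rfl⟩
    exact ⟨Fin.succ_ne_zero i, Finset.mem_univ _⟩

theorem inv4_cons {m : ℕ} (x0 x1 : ℂ) (z : Fin m → ℂ) (i : Fin (m + 1)) :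
    inv4 u h (Fin.cons x0 (Fin.cons x1 z) : Fin (m + 2) → ℂ) i.succ
      = (Fin.cons (rf u h 3 x1) z : Fin (m + 1) → ℂ) i := by
  unfold inv4
  refine Fin.cases ?_ (fun i' => ?_) i
  · rw [if_pos Fin.succ_zero_eq_one, Fin.cons_zero]
    rfl
  · rw [if_neg]
    · rfl
    · intro hc
      have := congrArg Fin.val hc
      simp at this

theorem fnv4_cons {m : ℕ} (x0 x1 : ℂ) (z : Fin m → ℂ) (i : Fin (m + 1)) :
    fnv4 u h (Fin.cons x0 (Fin.cons x1 z) : Fin (m + 2) → ℂ) i.succ
      = (Fin.snoc z (rf u h 2 x0) : Fin (m + 1) → ℂ) i := by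
  unfold fnv4
  refine Fin.lastCases ?_ (fun i' => ?_) i
  · rw [Fin.snoc_last, Fin.succ_last, Fin.last_add_one, if_pos rfl, Fin.cons_zero]
  · rw [Fin.snoc_castSucc, Fin.succ_castSucc, Fin.coeSucc_eq_succ, Fin.cons_succ, Fin.cons_succ,
      if_neg (Fin.succ_ne_zero _)]

theorem wtv_cons {m : ℕ} (τ : Fin (m + 2) → ℝ) (hτ : ∀ j, 0 < τ j)
    (a : Finset (Fin 4)) (A : Fin (m + 1) → Finset (Fin 4)) (x0 x1 : ℂ) (z : Fin m → ℂ) :
    ENNReal.ofReal (wtv u h τ (Fin.cons x0 (Fin.cons x1 z) : Fin (m + 2) → ℂ) (Fin.cons a A))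
      = ENNReal.ofReal (G (τ 0) (x0 - x1))
        * cw (uc4 u) (hc4 h) (fun j => τ j.succ) A (rf u h 3 x1) z (rf u h 2 x0) := by
  classical
  unfold wtv cw
  rw [ENNReal.ofReal_mul (AEU.H44.G_nonneg (hτ 0) _)]
  congr 1
  have e1 : (Finset.univ : Finset (Fin (m + 2))).erase 0
    = (Finset.univ : Finset (Fin (m + 1))).map (Fin.succEmb (m + 1)) := erase_zero m
  rw [ENNReal.ofReal_prod_of_nonneg fun j _ => kA_nonneg (uc4 u) (hc4 h) (hτ j) _ _ _]
  have e2 : ∀ f : Fin (m + 2) → ℝ≥0∞, ∏ j ∈ (Finset.univ : Finset (Fin (m + 2))).erase 0, f j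
      = ∏ i : Fin (m + 1), f i.succ := by
    intro f
    rw [e1, Finset.prod_map]
    rfl
  have e3 := e2 (fun j => ENNReal.ofReal (kA (uc4 u) (hc4 h)
    ((Fin.cons a A : Fin (m + 2) → Finset (Fin 4)) j) (τ j)
    (inv4 u h (Fin.cons x0 (Fin.cons x1 z) : Fin (m + 2) → ℂ) j)
    (fnv4 u h (Fin.cons x0 (Fin.cons x1 z) : Fin (m + 2) → ℂ) j)))
  refine Eq.trans ?_ (e3.trans ?_)
  · refine Finset.prod_congr ?_ fun _ _ => rfl
    congr 1
  · refine Finset.prod_congr rfl fun i _ => ?_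
    rw [inv4_cons, fnv4_cons, Fin.cons_succ]

theorem wtv_meas {n : ℕ} [NeZero n] (τ : Fin n → ℝ) (A : Fin n → Finset (Fin 4)) :
    Measurable fun x => wtv u h τ x A := by
  classical
  unfold wtv
  have hG : Measurable fun z : ℂ => G (τ 0) z := by
    unfold G
    fun_prop
  refine (hG.comp ((measurable_pi_apply 0).sub (measurable_pi_apply 1))).mul ?_
  refine Finset.measurable_fun_prod _ fun j _ => ?_
  have hi : Measurable fun x : Fin n → ℂ => inv4 u h x j := by
    unfold inv4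
    by_cases hj : j = 1
    · simp only [if_pos hj]
      exact (measurable_rf u h 3).comp (measurable_pi_apply 1)
    · simp only [if_neg hj]
      exact measurable_pi_apply j
  have hf : Measurable fun x : Fin n → ℂ => fnv4 u h x j := by
    unfold fnv4
    by_cases hj : j + 1 = 0
    · simp only [if_pos hj]
      exact (measurable_rf u h 2).comp (measurable_pi_apply 0)
    · simp only [if_neg hj]
      exact measurable_pi_apply (j + 1)
  exact kA_meas_comp _ _ (A j) measurable_const hi hf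

/-! ### General masses -/

open Classical in
/-- mass of a set for a general density -/
noncomputable def Mg {n : ℕ} (w : (Fin n → Finset (Fin 4)) → (Fin n → ℂ) → ℝ≥0∞)
    (S : (Fin n → ℂ) → (Fin n → Finset (Fin 4)) → Prop) : ℝ≥0∞ :=
  ∑ A, ∫⁻ x, if S x A then w A x else 0

theorem Ms_eq {n : ℕ} [NeZero n] (τ : Fin n → ℝ)
    (S : (Fin n → ℂ) → (Fin n → Finset (Fin 4)) → Prop) :
    Ms u h τ S = Mg (fun A x => ENNReal.ofReal (wt u h τ x A)) S := rfl

open Classical in
theorem Mvr_eq {n : ℕ} [NeZero n] (τ : Fin n → ℝ)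
    (S : (Fin n → ℂ) → (Fin n → Finset (Fin 4)) → Prop) :
    Mvr u h τ S = Mg (fun A x => if A 0 = ∅ then ENNReal.ofReal (wtv u h τ x A) else 0) S := by
  unfold Mvr Mg
  refine Finset.sum_congr rfl fun A _ => lintegral_congr fun x => ?_
  by_cases c1 : A 0 = ∅
  · by_cases c2 : S x A
    · rw [if_pos ⟨c1, c2⟩, if_pos c2]
      exact (if_pos c1).symm
    · rw [if_neg (fun h => c2 h.2), if_neg c2]
  · rw [if_neg (fun h => c1 h.1)]
    by_cases c2 : S x A
    · rw [if_pos c2]
      exact (if_neg c1).symm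
    · rw [if_neg c2]

theorem fw_meas {n : ℕ} [NeZero n] (τ : Fin n → ℝ) (A : Fin n → Finset (Fin 4)) :
    Measurable fun x => ENNReal.ofReal (wt u h τ x A) :=
  ENNReal.measurable_ofReal.comp (wt_meas u h τ A)

open Classical in
theorem fww_meas {n : ℕ} [NeZero n] (τ : Fin n → ℝ) (A : Fin n → Finset (Fin 4)) :
    Measurable fun x => if A 0 = ∅ then ENNReal.ofReal (wtv u h τ x A) else 0 := by
  by_cases c : A 0 = ∅
  · simp only [if_pos c]
    exact ENNReal.measurable_ofReal.comp (wtv_meas u h τ A)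
  · simp only [if_neg c]
    exact measurable_const

/-! ### Masses as integrals over the first two points -/

section Two

variable {m : ℕ} (τ : Fin (m + 2) → ℝ) (hτ : ∀ j, 0 < τ j)
  (R : (Fin (m + 1) → Finset (Fin 4)) → Prop) (S : ℂ → ℂ → Prop)
  (hS : MeasurableSet {p : ℂ × ℂ | S p.1 p.2})

include hS in
theorem S_meas (n : ℕ) : MeasurableSet {x : Fin (n + 2) → ℂ | S (x 0) (x 1)} := by
  have hm : Measurable fun x : Fin (n + 2) → ℂ => (x 0, x 1) :=
    (measurable_pi_apply (0 : Fin (n + 2))).prodMk (measurable_pi_apply 1)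
  exact hm hS

open Classical in
include hS in
/-- general form of the computation -/
theorem two_gen (w : (Fin (m + 2) → Finset (Fin 4)) → (Fin (m + 2) → ℂ) → ℝ≥0∞)
    (hw : ∀ A, Measurable (w A)) (g : Finset (Fin 4) → ℂ → ℂ → ℝ≥0∞)
    (hg : ∀ a, Measurable fun p : ℂ × ℂ => g a p.1 p.2)
    (c : (Fin (m + 1) → Finset (Fin 4)) → ℂ → ℂ → (Fin m → ℂ) → ℝ≥0∞)
    (hc : ∀ A, Measurable fun q : (ℂ × ℂ) × (Fin m → ℂ) => c A q.1.1 q.1.2 q.2)
    (hwc : ∀ a A x0 x1 z, w (Fin.cons a A) (Fin.cons x0 (Fin.cons x1 z)) = g a x0 x1 * c A x0 x1 z)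
    (hfin : ∀ a x0 x1, g a x0 x1 ≠ ⊤) :
    Mg w (fun x A => R (fun j => A j.succ) ∧ S (x 0) (x 1))
      = ∫⁻ p : ℂ × ℂ, if S p.1 p.2 then (∑ a, g a p.1 p.2)
        * ∑ A, (if R A then ∫⁻ z, c A p.1 p.2 z else 0) else 0 := by
  unfold Mg
  rw [sum_cons]
  have hcm : ∀ A, Measurable fun p : ℂ × ℂ => ∫⁻ z, c A p.1 p.2 z := fun A =>
    (hc A).lintegral_prod_right'
  have h1 : ∀ (a : Finset (Fin 4)) (A : Fin (m + 1) → Finset (Fin 4)),
      ∫⁻ x : Fin (m + 2) → ℂ, @ite _ (R (fun j => (Fin.cons a A : Fin (m + 2) → Finset (Fin 4))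
        j.succ) ∧ S (x 0) (x 1)) (Classical.propDecidable _) (w (Fin.cons a A) x) 0
      = ∫⁻ p : ℂ × ℂ, if S p.1 p.2 then g a p.1 p.2
        * (if R A then ∫⁻ z, c A p.1 p.2 z else 0) else 0 := by
    intro a A
    have e0 : (fun j => (Fin.cons a A : Fin (m + 2) → Finset (Fin 4)) j.succ) = A := by
      funext j
      exact Fin.cons_succ _ _ _
    rw [e0]
    by_cases hR : R A
    · simp only [hR, true_and, if_true]
      rw [lint_two]
      · refine lintegral_congr fun p => ?_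
        by_cases hs : S p.1 p.2
        · rw [if_pos hs]
          refine Eq.trans (lintegral_congr fun z => if_pos hs) ?_
          simp only [hwc]
          exact lintegral_const_mul' _ _ (hfin _ _ _)
        · rw [if_neg hs]
          refine Eq.trans (lintegral_congr fun z => if_neg hs) ?_
          exact lintegral_zero
      · exact Measurable.ite (S_meas S hS m) (hw _) measurable_const
    · simp only [hR, false_and, if_false, mul_zero, ite_self, lintegral_zero]
  refine Eq.trans (Finset.sum_congr rfl fun a _ => Finset.sum_congr rfl fun A _ => h1 a A) ?_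
  have hm1 : ∀ (a : Finset (Fin 4)) (A : Fin (m + 1) → Finset (Fin 4)),
      Measurable fun p : ℂ × ℂ => if S p.1 p.2 then g a p.1 p.2
        * (if R A then ∫⁻ z, c A p.1 p.2 z else 0) else 0 := by
    intro a A
    refine Measurable.ite hS ((hg a).mul ?_) measurable_const
    by_cases hR : R A
    · simp only [if_pos hR]
      exact hcm A
    · simp only [if_neg hR]
      exact measurable_const
  have h2 : ∀ a : Finset (Fin 4), ∑ A : Fin (m + 1) → Finset (Fin 4),
      (∫⁻ p : ℂ × ℂ, if S p.1 p.2 then g a p.1 p.2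
        * (if R A then ∫⁻ z, c A p.1 p.2 z else 0) else 0)
      = ∫⁻ p : ℂ × ℂ, ∑ A : Fin (m + 1) → Finset (Fin 4), if S p.1 p.2 then g a p.1 p.2
        * (if R A then ∫⁻ z, c A p.1 p.2 z else 0) else 0 := fun a =>
    (lintegral_finsetSum _ fun A _ => hm1 a A).symm
  simp only [h2]
  rw [← lintegral_finsetSum _ fun a _ => Finset.measurable_fun_sum _ fun A _ => hm1 a A]
  refine lintegral_congr fun p => ?_
  by_cases hs : S p.1 p.2
  · simp only [if_pos hs]
    rw [Finset.sum_mul_sum]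
  · simp only [if_neg hs, Finset.sum_const_zero]

open Classical in
include hτ hS in
theorem Ms_two : Ms u h τ (fun x A => R (fun j => A j.succ) ∧ S (x 0) (x 1))
    = ∫⁻ p : ℂ × ℂ, if S p.1 p.2 then ENNReal.ofReal (G (τ 0) (p.1 - p.2))
      * Cs u h R (fun j => τ j.succ) p.2 p.1 else 0 := by
  rw [Ms_eq, two_gen R S hS (fun A x => ENNReal.ofReal (wt u h τ x A)) (fw_meas u h τ)
    (fun a x0 x1 => ENNReal.ofReal (kA u h a (τ 0) x0 x1))
    (fun a => ENNReal.measurable_ofReal.comp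
      (kA_meas_comp u h a measurable_const measurable_fst measurable_snd))
    (fun A x0 x1 z => cw u h (fun j => τ j.succ) A x1 z x0)
    (fun A => cw_meas_comp u h _ A (measurable_snd.comp measurable_fst) measurable_snd
      (measurable_fst.comp measurable_fst))
    (fun a A x0 x1 z => wt_cons u h τ hτ a A x0 x1 z)
    (fun _ _ _ => ENNReal.ofReal_ne_top)]
  refine lintegral_congr fun p => ?_
  by_cases hs : S p.1 p.2
  · rw [if_pos hs, if_pos hs, sum_all u h (hτ 0)]
    rfl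
  · rw [if_neg hs, if_neg hs]

theorem Gm (s : ℝ) : Measurable fun p : ℂ × ℂ => ENNReal.ofReal (G s (p.1 - p.2)) := by
  unfold G
  fun_prop

open Classical in
include hτ hS in
theorem Mvr_two : Mvr u h τ (fun x A => R (fun j => A j.succ) ∧ S (x 0) (x 1))
    = ∫⁻ p : ℂ × ℂ, if S p.1 p.2 then ENNReal.ofReal (G (τ 0) (p.1 - p.2))
      * Cs (uc4 u) (hc4 h) R (fun j => τ j.succ) (rf u h 3 p.2) (rf u h 2 p.1) else 0 := by
  rw [Mvr_eq, two_gen R S hS (fun A x => if A 0 = ∅ then ENNReal.ofReal (wtv u h τ x A) else 0)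
    (fww_meas u h τ)
    (fun a x0 x1 => if a = ∅ then ENNReal.ofReal (G (τ 0) (x0 - x1)) else 0)
    (fun a => ?_)
    (fun A x0 x1 z => cw (uc4 u) (hc4 h) (fun j => τ j.succ) A (rf u h 3 x1) z (rf u h 2 x0))
    (fun A => cw_meas_comp _ _ _ A ((measurable_rf u h 3).comp (measurable_snd.comp measurable_fst))
      measurable_snd ((measurable_rf u h 2).comp (measurable_fst.comp measurable_fst)))
    (fun a A x0 x1 z => ?_)
    (fun a _ _ => ?_)]
  · refine lintegral_congr fun p => ?_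
    by_cases hs : S p.1 p.2
    · rw [if_pos hs, if_pos hs]
      simp only [Finset.sum_ite_eq', Finset.mem_univ, if_true]
      rfl
    · rw [if_neg hs, if_neg hs]
  · by_cases ha : a = ∅
    · simp only [if_pos ha]
      exact Gm (τ 0)
    · simp only [if_neg ha]
      exact measurable_const
  · show (if (Fin.cons a A : Fin (m + 2) → Finset (Fin 4)) 0 = ∅ then _ else _) = _
    rw [Fin.cons_zero]
    by_cases ha : a = ∅
    · rw [if_pos ha, if_pos ha]
      exact wtv_cons u h τ hτ a A x0 x1 z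
    · rw [if_neg ha, if_neg ha, zero_mul]
  · by_cases ha : a = ∅
    · rw [if_pos ha]
      exact ENNReal.ofReal_ne_top
    · rw [if_neg ha]
      exact ENNReal.zero_ne_top

end Two

/-- labels `0` and `1` are not changed by the reflections -/
theorem kME_uc4 {O E : Finset (Fin 4)} (hO : O ⊆ {0, 1}) (hE : E ⊆ {0, 1}) (t : ℝ) (x y : ℂ) :
    kME (uc4 u) (hc4 h) O E t x y = kME u h O E t x y := by
  unfold kME
  refine Finset.sum_congr rfl fun B hB => ?_
  congr 1
  unfold pB
  congr 1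
  ext z
  unfold Dm
  refine forall₂_congr fun s hs => ?_
  have hs0 : s = 0 ∨ s = 1 := by
    have h1 : s ∈ ({0, 1} : Finset (Fin 4)) := by
      rcases Finset.mem_union.mp hs with h1 | h1
      · exact hE h1
      · exact hO (Finset.mem_powerset.mp hB h1)
    simpa using h1
  have e1 : uc4 u s = u s := by
    rcases hs0 with rfl | rfl <;> simp [uc4, Function.update]
  have e2 : hc4 h s = h s := by
    rcases hs0 with rfl | rfl <;> simp [hc4, Function.update]
  rw [e1, e2]

/-- RMA -/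
theorem rma : RmaStatement := by
  classical
  refine ⟨?_, ?_⟩
  · intro u h m P S τ hu hτ hS
    refine ⟨?_, ?_⟩
    · rw [Ms_two u h τ hτ P S hS]
      have hcm : Measurable fun p : ℂ × ℂ => Cs u h P (fun j => τ j.succ) p.2 p.1 :=
        Measurable.comp (g := fun p : ℂ × ℂ => Cs u h P (fun j => τ j.succ) p.1 p.2)
          (f := fun p : ℂ × ℂ => (p.2, p.1)) (Cs_meas u h P (fun j => τ j.succ))
          (measurable_snd.prodMk measurable_fst)
      have hm : Measurable fun p : ℂ × ℂ => if S p.1 p.2 then ENNReal.ofReal (G (τ 0) (p.1 - p.2))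
          * Cs u h P (fun j => τ j.succ) p.2 p.1 else 0 :=
        Measurable.ite hS ((Gm (τ 0)).mul hcm) measurable_const
      exact lintegral_prod (μ := (volume : Measure ℂ)) (ν := (volume : Measure ℂ)) _
        hm.aemeasurable
    · rw [Mvr_two u h τ hτ P S hS]
      have hcm : Measurable fun p : ℂ × ℂ =>
          Cs (uc4 u) (hc4 h) P (fun j => τ j.succ) (rf u h 3 p.2) (rf u h 2 p.1) :=
        Measurable.comp (g := fun p : ℂ × ℂ => Cs (uc4 u) (hc4 h) P (fun j => τ j.succ) p.1 p.2)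
          (f := fun p : ℂ × ℂ => (rf u h 3 p.2, rf u h 2 p.1))
          (Cs_meas (uc4 u) (hc4 h) P (fun j => τ j.succ))
          (((measurable_rf u h 3).comp measurable_snd).prodMk
            ((measurable_rf u h 2).comp measurable_fst))
      have hm : Measurable fun p : ℂ × ℂ => if S p.1 p.2 then ENNReal.ofReal (G (τ 0) (p.1 - p.2))
          * Cs (uc4 u) (hc4 h) P (fun j => τ j.succ) (rf u h 3 p.2) (rf u h 2 p.1) else 0 :=
        Measurable.ite hS ((Gm (τ 0)).mul hcm) measurable_const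
      exact lintegral_prod (μ := (volume : Measure ℂ)) (ν := (volume : Measure ℂ)) _
        hm.aemeasurable
  · intro u h O E m τ x y _ hO hE hτ
    rw [Cs_vis (uc4 u) (hc4 h) O E τ hτ, kME_uc4 u h hO hE]

end Pool.Agent.XQ.K4.H7
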