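import Pool.Agent.Helper36_XQ.Stmt5
import Pool.Agent.Helper84_XQ.Pol4

/-!
Squad XQ (MP_5b0138_an), part E4, module VPL: lengths of virtual configurations.
-/

set_option autoImplicit false

namespace Pool.Agent.XQ.K4.H7

open MeasureTheory Complex Filter Topology ProbabilityTheory Pool.Agent.H16Iso Pool.Agent.H62T
  Pool.Agent.H16F Pool.Agent.H38KL Pool.Agent.AEU
open scoped ENNReal NNReal

theorem uc4_norm {u : Fin 4 → ℂ} (hu : ∀ s, ‖u s‖ = 1) (s : Fin 4) : ‖uc4 u s‖ = 1 := by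
  fin_cases s <;> simp [uc4, Function.update, hu]

section
variable {n : ℕ} [NeZero n]

lemma ofNat_eq_iff {a b : ℕ} (ha : a < n) (hb : b < n) : Fin.ofNat n a = Fin.ofNat n b ↔ a = b := by
  constructor
  · intro hh
    have := congrArg Fin.val hh
    simpa [Fin.ofNat, Nat.mod_eq_of_lt ha, Nat.mod_eq_of_lt hb] using this
  · rintro rfl; rfl

lemma one_eq : (1 : Fin n) = Fin.ofNat n 1 := by
  apply Fin.ext
  simp [Fin.ofNat]

lemma zero_eq : (0 : Fin n) = Fin.ofNat n 0 := by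
  apply Fin.ext
  simp [Fin.ofNat]

lemma inv4_eq (hn : 3 ≤ n) (u : Fin 4 → ℂ) (h : Fin 4 → ℝ) (x : Fin n → ℂ) {l : ℕ} (h1 : 1 ≤ l)
    (h2 : l < n) : inv4 u h x (Fin.ofNat n l) = zV u h x l := by
  unfold inv4 zV
  by_cases hl : l = 1
  · rw [if_pos hl, if_pos (by rw [hl, one_eq])]
  · have h3 : ¬ Fin.ofNat n l = 1 := by
      rw [one_eq, ofNat_eq_iff h2 (by omega)]
      exact hl
    rw [if_neg hl, if_neg (show ¬ l = n by omega), if_neg h3]

lemma fnv4_eq (hn : 3 ≤ n) (u : Fin 4 → ℂ) (h : Fin 4 → ℝ) (x : Fin n → ℂ) {l : ℕ} (h1 : 1 ≤ l)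
    (h2 : l < n) : fnv4 u h x (Fin.ofNat n l) = zV u h x (l + 1) := by
  unfold fnv4 zV
  rw [if_neg (show ¬ l + 1 = 1 by omega), ← H84.ofNat_succ]
  by_cases hl : l + 1 = n
  · have : Fin.ofNat n (l + 1) = 0 := by
      apply Fin.ext
      simp [Fin.ofNat, hl]
    rw [if_pos this, if_pos hl]
  · have h3 : ¬ Fin.ofNat n (l + 1) = 0 := by
      rw [zero_eq, ofNat_eq_iff (by omega) (by omega)]
      omega
    rw [if_neg h3, if_neg hl]

lemma ofNat_ne (hn : 3 ≤ n) {l : ℕ} (h1 : 1 ≤ l) (h2 : l < n) : Fin.ofNat n l ≠ 0 := by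
  rw [zero_eq, Ne, ofNat_eq_iff h2 (by omega)]
  omega

lemma blv4_eq (hn : 3 ≤ n) (u : Fin 4 → ℂ) (h : Fin 4 → ℝ) (x : Fin n → ℂ)
    (A : Fin n → Finset (Fin 4)) {l : ℕ} (h1 : 1 ≤ l) (h2 : l < n) :
    blv4 u h x A (Fin.ofNat n l)
      = bl (uc4 u) (hc4 h) (A (Fin.ofNat n l)) (zV u h x l) (zV u h x (l + 1)) := by
  unfold blv4
  rw [if_neg (ofNat_ne hn h1 h2), inv4_eq hn u h x h1 h2, fnv4_eq hn u h x h1 h2]

lemma blv4_zero (u : Fin 4 → ℂ) (h : Fin 4 → ℝ) (x : Fin n → ℂ)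
    (A : Fin n → Finset (Fin 4)) : blv4 u h x A 0 = ‖x 0 - x 1‖ := by
  unfold blv4
  rw [if_pos rfl]

lemma Lv_range (hn : 3 ≤ n) (u : Fin 4 → ℂ) (h : Fin 4 → ℝ) (x : Fin n → ℂ)
    (A : Fin n → Finset (Fin 4)) :
    Lv u h x A = ‖x 0 - x 1‖ + ∑ k ∈ Finset.Ico 1 n, blv4 u h x A (Fin.ofNat n k) := by
  have h1 : Lv u h x A = ∑ k ∈ Finset.range n, blv4 u h x A (Fin.ofNat n k) := by
    rw [Finset.sum_range]
    unfold Lv
    apply Finset.sum_congr rfl
    intro i _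
    rw [H84.ofNat_val]
  rw [h1, Finset.range_eq_Ico, Finset.sum_eq_sum_Ico_succ_bot (by omega), ← zero_eq, blv4_zero]

end

lemma tele_mono (z : ℕ → ℂ) (m : ℕ) (f : Fin (m + 1) → ℕ) (hf : Monotone f) :
    ∑ i : Fin m, ‖z (f i.castSucc) - z (f i.succ)‖
      ≤ ∑ k ∈ Finset.Ico (f 0) (f (Fin.last m)), ‖z k - z (k + 1)‖ := by
  induction m with
  | zero => simp
  | succ m ih =>
    rw [Fin.sum_univ_castSucc]
    have h1 := ih (fun i => f i.castSucc) (fun i j hij => hf (Fin.castSucc_le_castSucc_iff.2 hij))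
    have h2 : ‖z (f (Fin.last m).castSucc) - z (f (Fin.last (m + 1)))‖ ≤
        ∑ k ∈ Finset.Ico (f (Fin.last m).castSucc) (f (Fin.last (m + 1))), ‖z k - z (k + 1)‖ := by
      have := dist_le_Ico_sum_dist z (hf (Fin.castSucc_lt_last (Fin.last m)).le)
      simpa only [dist_eq_norm] using this
    have h3 : f 0 ≤ f (Fin.last m).castSucc := hf (Fin.zero_le _)
    rw [← Finset.sum_Ico_consecutive _ h3 (hf (Fin.castSucc_lt_last (Fin.last m)).le)]
    have h4 : ∑ i : Fin m, ‖z (f i.castSucc.castSucc) - z (f i.castSucc.succ)‖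
        = ∑ i : Fin m, ‖z (f i.castSucc.castSucc) - z (f i.succ.castSucc)‖ := by
      apply Finset.sum_congr rfl
      intro i _
      rw [Fin.succ_castSucc]
    rw [h4]
    have h5 : (Fin.last m).succ = Fin.last (m + 1) := Fin.succ_last m
    rw [h5]
    exact add_le_add h1 h2

/-- VPL -/
theorem vpl : VplStatement := by
  intro u h n _ x A hu hn
  have huc := uc4_norm hu
  have hstep : ∀ l : ℕ, 1 ≤ l → l < n →
      ‖zV u h x l - zV u h x (l + 1)‖ ≤ blv4 u h x A (Fin.ofNat n l) := by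
    intro l h1 h2
    rw [blv4_eq hn u h x A h1 h2]
    exact le_bl huc _ _ _
  refine ⟨?_, ?_, ?_⟩
  · intro m f hf h1 h2
    have h3 := tele_mono (zV u h x) m f hf.monotone
    rw [Lv_range hn]
    have h4 : ∑ k ∈ Finset.Ico (f 0) (f (Fin.last m)), ‖zV u h x k - zV u h x (k + 1)‖ ≤
        ∑ k ∈ Finset.Ico 1 n, ‖zV u h x k - zV u h x (k + 1)‖ := by
      apply Finset.sum_le_sum_of_subset_of_nonneg
      · intro k hk
        rw [Finset.mem_Ico] at hk ⊢
        omega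
      · intro k _ _
        exact norm_nonneg _
    have h5 : ∑ k ∈ Finset.Ico 1 n, ‖zV u h x k - zV u h x (k + 1)‖ ≤
        ∑ k ∈ Finset.Ico 1 n, blv4 u h x A (Fin.ofNat n k) := by
      apply Finset.sum_le_sum
      intro k hk
      rw [Finset.mem_Ico] at hk
      exact hstep k hk.1 hk.2
    linarith
  · intro δ hS
    refine ⟨fun l h1 h2 => (hstep l h1 h2).trans_lt (hS _), fun l s h1 h2 hs => ?_⟩
    have h3 := H84.vis_ip (u := uc4 u) (h := hc4 h) hs (huc s) (zV u h x l) (zV u h x (l + 1))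
    have h4 := hS (Fin.ofNat n l)
    rw [blv4_eq hn u h x A h1 h2] at h4
    linarith
  · intro hC l s h1 h2 hs
    have h3 := hC (Fin.ofNat n l) s (ofNat_ne hn h1 h2) hs
    rw [inv4_eq hn u h x h1 h2, fnv4_eq hn u h x h1 h2] at h3
    exact h3

end Pool.Agent.XQ.K4.H7
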