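import Pool.Agent.Helper35_XQ.Stmt
import Pool.Agent.Helper8_TRI.Heat

/-!
Squad XQ (MP_5b0138_an), Part A2, module TUI: the flux is given by the kernel of the other blocks.
-/

set_option autoImplicit false

namespace Pool.Agent.XQ.GI.H7

open MeasureTheory Complex Filter Topology Pool.Agent.H62T Pool.Agent.H60K
open scoped ENNReal NNReal

open Classical in
/-- kernel of the other blocks, with values in the extended half-line -/
noncomputable def EU (K : Lb → ℂ → ℂ → ℝ≥0∞) : ℕ → Wd → ℂ → ℂ → ℝ≥0∞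
  | 0, w, z, x => ∑ f : Lb, if f w = em then K f z x else 0
  | k + 1, w, z, x => ∑ f : Lb, ∫⁻ y, K f z y * EU K k (f w) y x

/-- density of a chain -/
noncomputable def PK (K : Lb → ℂ → ℂ → ℝ≥0∞) :
    (k : ℕ) → (Fin (k + 1) → Lb) → ℂ → (Fin k → ℂ) → ℂ → ℝ≥0∞
  | 0, B, z, _, x => K (B 0) z x
  | k + 1, B, z, y, x => K (B 0) z (y 0) * PK K k (fun i => B i.succ) (y 0) (fun i => y i.succ) x

theorem pk_succ (K : Lb → ℂ → ℂ → ℝ≥0∞) (k : ℕ) (B : Fin (k + 2) → Lb) (z : ℂ)
    (y : Fin (k + 1) → ℂ) (x : ℂ) : PK K (k + 1) B z y x =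
      K (B 0) z (y 0) * PK K k (fun i => B i.succ) (y 0) (fun i => y i.succ) x := rfl

theorem pk_meas {K : Lb → ℂ → ℂ → ℝ≥0∞} (hK : ∀ f, Measurable (fun p : ℂ × ℂ => K f p.1 p.2)) :
    ∀ (k : ℕ) (B : Fin (k + 1) → Lb),
      Measurable (fun p : ℂ × (Fin k → ℂ) × ℂ => PK K k B p.1 p.2.1 p.2.2) := by
  intro k
  induction k with
  | zero =>
    intro B
    have h : Measurable (fun p : ℂ × (Fin 0 → ℂ) × ℂ => (p.1, p.2.2)) :=
      measurable_fst.prodMk (measurable_snd.comp measurable_snd)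
    exact (hK (B 0)).comp h
  | succ k ih =>
    intro B
    have h0 : Measurable (fun p : ℂ × (Fin (k + 1) → ℂ) × ℂ => p.2.1 0) :=
      (measurable_pi_apply 0).comp (measurable_fst.comp measurable_snd)
    have h1 : Measurable (fun p : ℂ × (Fin (k + 1) → ℂ) × ℂ => (p.1, p.2.1 0)) :=
      measurable_fst.prodMk h0
    have h2 : Measurable (fun p : ℂ × (Fin (k + 1) → ℂ) × ℂ =>
        (p.2.1 0, (fun i : Fin k => p.2.1 i.succ), p.2.2)) :=
      h0.prodMk ((measurable_pi_lambda _ fun i => (measurable_pi_apply i.succ).comp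
        (measurable_fst.comp measurable_snd)).prodMk (measurable_snd.comp measurable_snd))
    exact ((hK (B 0)).comp h1).mul ((ih fun i => B i.succ).comp h2)

theorem lint_cons (m : ℕ) (f : (Fin (m + 1) → ℂ) → ℝ≥0∞) (hf : Measurable f) :
    ∫⁻ x, f x = ∫⁻ z : ℂ, ∫⁻ y : Fin m → ℂ, f (Fin.cons z y) := by
  have h := (volume_preserving_piFinSuccAbove (fun _ : Fin (m + 1) => ℂ) 0).symm
  rw [← h.lintegral_comp hf]
  have h1 : Measurable (fun p : ℂ × (Fin m → ℂ) => f ((MeasurableEquiv.piFinSuccAbove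
      (fun _ : Fin (m + 1) => ℂ) 0).symm p)) := hf.comp (MeasurableEquiv.measurable _)
  have h2 := lintegral_prod (μ := (volume : Measure ℂ)) (ν := (volume : Measure (Fin m → ℂ)))
    _ h1.aemeasurable
  refine h2.trans ?_
  refine lintegral_congr fun z => lintegral_congr fun y => ?_
  rw [MeasurableEquiv.piFinSuccAbove_symm_apply]
  exact congrArg f (Fin.insertNth_zero' z y)

theorem sum_cons {M : Type*} [AddCommMonoid M] (m : ℕ) (F : (Fin (m + 1) → Lb) → M) :
    ∑ A, F A = ∑ f : Lb, ∑ B : Fin m → Lb, F (Fin.cons f B) := by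
  rw [← (Fin.consEquiv (fun _ : Fin (m + 1) => Lb)).sum_comp, Fintype.sum_prod_type]
  rfl

theorem lint_fin0 (c : ℝ≥0∞) : ∫⁻ _ : Fin 0 → ℂ, c = c := by
  rw [lintegral_const, Measure.volume_pi_eq_dirac, measure_univ, mul_one]

open Classical in
theorem eu_eq {K : Lb → ℂ → ℂ → ℝ≥0∞} (hK : ∀ f, Measurable (fun p : ℂ × ℂ => K f p.1 p.2)) :
    ∀ (k : ℕ) (w : Wd) (z x : ℂ), EU K k w z x = ∑ B : Fin (k + 1) → Lb,
      if (List.ofFn B).foldl (fun v f => f v) w = em then ∫⁻ y : Fin k → ℂ, PK K k B z y x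
        else 0 := by
  intro k
  induction k with
  | zero =>
    intro w z x
    rw [sum_cons]
    unfold EU
    refine Finset.sum_congr rfl fun f _ => ?_
    rw [Fintype.sum_unique]
    have h1 : (List.ofFn (Fin.cons f (default : Fin 0 → Lb) : Fin 1 → Lb)).foldl
        (fun v f => f v) w = f w := by
      simp
    rw [h1]
    unfold PK
    rw [lint_fin0, Fin.cons_zero]
  | succ k ih =>
    intro w z x
    rw [sum_cons]
    unfold EU
    refine Finset.sum_congr rfl fun f _ => ?_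
    have h1 : ∀ B : Fin (k + 1) → Lb, (List.ofFn (Fin.cons f B : Fin (k + 2) → Lb)).foldl
        (fun v f => f v) w = (List.ofFn B).foldl (fun v f => f v) (f w) := by
      intro B
      rw [List.ofFn_succ, List.foldl_cons]
      simp only [Fin.cons_zero, Fin.cons_succ]
    have h2 : ∀ B : Fin (k + 1) → Lb, ∫⁻ y : Fin (k + 1) → ℂ, PK K (k + 1) (Fin.cons f B) z y x
        = ∫⁻ y, K f z y * ∫⁻ y' : Fin k → ℂ, PK K k B y y' x := by
      intro B
      rw [lint_cons]
      · refine lintegral_congr fun y => ?_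
        simp only [pk_succ, Fin.cons_zero, Fin.cons_succ]
        rw [lintegral_const_mul]
        have h3 : Measurable (fun y' : Fin k → ℂ => (y, y', x)) :=
          measurable_const.prodMk (measurable_id.prodMk measurable_const)
        exact (pk_meas hK k B).comp h3
      · have h3 : Measurable (fun y' : Fin (k + 1) → ℂ => (z, y', x)) :=
          measurable_const.prodMk (measurable_id.prodMk measurable_const)
        exact (pk_meas hK (k + 1) (Fin.cons f B)).comp h3
    have h3 : ∀ y, K f z y * EU K k (f w) y x = ∑ B : Fin (k + 1) → Lb, K f z y *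
        (if (List.ofFn B).foldl (fun v f => f v) (f w) = em then
          ∫⁻ y' : Fin k → ℂ, PK K k B y y' x else 0) := by
      intro y
      rw [ih, Finset.mul_sum]
    simp_rw [h3, h1, h2]
    rw [lintegral_finsetSum]
    · refine Finset.sum_congr rfl fun B _ => ?_
      by_cases hB : (List.ofFn B).foldl (fun v f => f v) (f w) = em
      · simp only [if_pos hB]
      · simp only [if_neg hB, mul_zero, lintegral_zero]
    · intro B _
      have h4 : Measurable (fun y => K f z y) :=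
        (hK f).comp (measurable_const.prodMk measurable_id)
      refine h4.mul ?_
      by_cases hB : (List.ofFn B).foldl (fun v f => f v) (f w) = em
      · simp only [if_pos hB]
        have h5 : Measurable (fun p : ℂ × (Fin k → ℂ) => PK K k B p.1 p.2 x) := by
          have h6 : Measurable (fun p : ℂ × (Fin k → ℂ) => (p.1, p.2, x)) :=
            measurable_fst.prodMk (measurable_snd.prodMk measurable_const)
          exact (pk_meas hK k B).comp h6
        exact h5.lintegral_prod_right'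
      · simp only [if_neg hB]
        exact measurable_const

theorem prod_eq (K : Lb → ℂ → ℂ → ℝ≥0∞) : ∀ (k : ℕ) (B : Fin (k + 1) → Lb) (p : Fin (k + 2) → ℂ),
    ∏ j, K (B j) (p j.castSucc) (p j.succ)
      = PK K k B (p 0) (fun i => p i.succ.castSucc) (p (Fin.last (k + 1))) := by
  intro k
  induction k with
  | zero =>
    intro B p
    rw [Fin.prod_univ_succ]
    unfold PK
    simp
  | succ k ih =>
    intro B p
    rw [Fin.prod_univ_succ]
    have h := ih (fun i => B i.succ) (fun i => p i.succ)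
    unfold PK
    congr 1

theorem w_eq (K : Lb → ℂ → ℂ → ℝ≥0∞) (k : ℕ) (A : Fin (k + 2) → Lb) (x : Fin (k + 2) → ℂ) :
    ∏ j, K (A j) (x j) (x (j + 1)) = K (A 0) (x 0) (x 1) *
      PK K k (fun i => A i.succ) (x 1) (fun i => x i.succ.succ) (x 0) := by
  rw [Fin.prod_univ_succ]
  congr 1
  have h := prod_eq K k (fun i => A i.succ)
    (Fin.snoc (fun i : Fin (k + 1) => x i.succ) (x 0) : Fin (k + 2) → ℂ)
  have e1 : ∀ j : Fin (k + 1), (Fin.snoc (fun i : Fin (k + 1) => x i.succ) (x 0) :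
      Fin (k + 2) → ℂ) j.castSucc = x j.succ := fun j => by
    rw [Fin.snoc_castSucc]
  have e2 : ∀ j : Fin (k + 1), (Fin.snoc (fun i : Fin (k + 1) => x i.succ) (x 0) :
      Fin (k + 2) → ℂ) j.succ = x (j.succ + 1) := fun j => by
    refine Fin.lastCases ?_ (fun i => ?_) j
    · rw [Fin.succ_last, Fin.snoc_last, Fin.last_add_one]
    · rw [Fin.succ_castSucc, e1, Fin.coeSucc_eq_succ]
  simp_rw [e1, e2] at h
  rw [h]
  have e3 : (Fin.snoc (fun i : Fin (k + 1) => x i.succ) (x 0) : Fin (k + 2) → ℂ) 0 = x 1 := by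
    have := e1 0
    rwa [Fin.castSucc_zero, Fin.succ_zero_eq_one] at this
  rw [e3, Fin.snoc_last]

open Classical in
theorem main {K : Lb → ℂ → ℂ → ℝ≥0∞} (hK : ∀ f, Measurable (fun p : ℂ × ℂ => K f p.1 p.2))
    {φ : ℂ × ℂ → ℝ≥0∞} (hφ : Measurable φ) (k : ℕ) (w : Wd) :
    ∑ A : Fin (k + 2) → Lb, ∫⁻ x : Fin (k + 2) → ℂ, φ (x 0, x 1) *
      (if (List.ofFn fun i : Fin (k + 1) => A i.succ).foldl (fun v f => f v) w = em then
        ∏ j, K (A j) (x j) (x (j + 1)) else 0)
      = ∫⁻ p : ℂ × ℂ, φ p * ((∑ f, K f p.1 p.2) * EU K k w p.2 p.1) := by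
  have hI : ∀ B : Fin (k + 1) → Lb,
      Measurable (fun p : ℂ × ℂ => ∫⁻ y : Fin k → ℂ, PK K k B p.2 y p.1) := by
    intro B
    have h5 : Measurable (fun p : (ℂ × ℂ) × (Fin k → ℂ) => PK K k B p.1.2 p.2 p.1.1) := by
      have h6 : Measurable (fun p : (ℂ × ℂ) × (Fin k → ℂ) => (p.1.2, p.2, p.1.1)) :=
        (measurable_snd.comp measurable_fst).prodMk (measurable_snd.prodMk
          (measurable_fst.comp measurable_fst))
      exact (pk_meas hK k B).comp h6
    exact h5.lintegral_prod_right'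
  have hF : ∀ (f : Lb) (B : Fin (k + 1) → Lb), Measurable (fun p : ℂ × ℂ => φ p * (K f p.1 p.2 *
      (if (List.ofFn B).foldl (fun v f => f v) w = em then
        ∫⁻ y : Fin k → ℂ, PK K k B p.2 y p.1 else 0))) := by
    intro f B
    refine hφ.mul ((hK f).mul ?_)
    by_cases hB : (List.ofFn B).foldl (fun v f => f v) w = em
    · simp only [if_pos hB]
      exact hI B
    · simp only [if_neg hB]
      exact measurable_const
  rw [sum_cons]
  have h1 : ∀ p : ℂ × ℂ, φ p * ((∑ f, K f p.1 p.2) * EU K k w p.2 p.1)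
      = ∑ f : Lb, ∑ B : Fin (k + 1) → Lb, φ p * (K f p.1 p.2 *
      (if (List.ofFn B).foldl (fun v f => f v) w = em then
        ∫⁻ y : Fin k → ℂ, PK K k B p.2 y p.1 else 0)) := by
    intro p
    rw [eu_eq hK, Finset.sum_mul, Finset.mul_sum]
    refine Finset.sum_congr rfl fun f _ => ?_
    rw [Finset.mul_sum, Finset.mul_sum]
  simp_rw [h1]
  rw [lintegral_finsetSum _ fun f _ => Finset.measurable_fun_sum _ fun B _ => hF f B]
  refine Finset.sum_congr rfl fun f _ => ?_
  rw [lintegral_finsetSum _ fun B _ => hF f B]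
  refine Finset.sum_congr rfl fun B _ => ?_
  rw [Measure.volume_eq_prod, lintegral_prod _ (hF f B).aemeasurable]
  simp only [Fin.cons_succ]
  have hm : Measurable (fun x : Fin (k + 2) → ℂ => φ (x 0, x 1) *
      (if (List.ofFn fun i : Fin (k + 1) => B i).foldl (fun v f => f v) w = em then
        ∏ j, K ((Fin.cons f B : Fin (k + 2) → Lb) j) (x j) (x (j + 1)) else 0)) := by
    refine (hφ.comp ((measurable_pi_apply 0).prodMk (measurable_pi_apply 1))).mul ?_
    refine Measurable.ite (MeasurableSet.const _) ?_ measurable_const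
    refine Finset.measurable_fun_prod _ fun j _ => ?_
    have h6 : Measurable (fun x : Fin (k + 2) → ℂ => (x j, x (j + 1))) :=
      (measurable_pi_apply j).prodMk (measurable_pi_apply (j + 1))
    exact (hK ((Fin.cons f B : Fin (k + 2) → Lb) j)).comp h6
  rw [lint_cons _ _ hm]
  refine lintegral_congr fun z => ?_
  rw [lint_cons]
  swap
  · have h7 : Measurable (fun x : Fin (k + 1) → ℂ => (Fin.cons z x : Fin (k + 2) → ℂ)) := by
      refine measurable_pi_lambda _ fun i => ?_
      refine Fin.cases ?_ (fun j => ?_) i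
      · simp only [Fin.cons_zero]
        exact measurable_const
      · simp only [Fin.cons_succ]
        exact measurable_pi_apply j
    exact hm.comp h7
  refine lintegral_congr fun z' => ?_
  have h8 : ∀ y : Fin k → ℂ, ∏ j, K ((Fin.cons f B : Fin (k + 2) → Lb) j)
      ((Fin.cons z (Fin.cons z' y : Fin (k + 1) → ℂ) : Fin (k + 2) → ℂ) j)
      ((Fin.cons z (Fin.cons z' y : Fin (k + 1) → ℂ) : Fin (k + 2) → ℂ) (j + 1))
      = K f z z' * PK K k B z' y z := by
    intro y
    rw [w_eq]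
    simp only [Fin.cons_zero, Fin.cons_succ, Fin.cons_one]
  simp_rw [h8]
  by_cases hB : (List.ofFn B).foldl (fun v f => f v) w = em
  · simp only [if_pos hB, Fin.cons_zero, Fin.cons_one]
    have h9 : Measurable (fun y : Fin k → ℂ => PK K k B z' y z) := by
      have h3 : Measurable (fun y' : Fin k → ℂ => (z', y', z)) :=
        measurable_const.prodMk (measurable_id.prodMk measurable_const)
      exact (pk_meas hK k B).comp h3
    rw [lintegral_const_mul _ (h9.const_mul _), lintegral_const_mul _ h9]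
  · simp only [if_neg hB, mul_zero, lintegral_zero]

open Classical in
theorem eu_meas {K : Lb → ℂ → ℂ → ℝ≥0∞} (hK : ∀ f, Measurable (fun p : ℂ × ℂ => K f p.1 p.2)) :
    ∀ (k : ℕ) (w : Wd), Measurable (fun p : ℂ × ℂ => EU K k w p.1 p.2) := by
  intro k
  induction k with
  | zero =>
    intro w
    unfold EU
    refine Finset.measurable_fun_sum _ fun f _ => ?_
    exact Measurable.ite (MeasurableSet.const _) (hK f) measurable_const
  | succ k ih =>
    intro w
    unfold EU
    refine Finset.measurable_fun_sum _ fun f _ => ?_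
    have h1 : Measurable (fun p : (ℂ × ℂ) × ℂ => K f p.1.1 p.2 * EU K k (f w) p.2 p.1.2) := by
      have h2 : Measurable (fun p : (ℂ × ℂ) × ℂ => (p.1.1, p.2)) :=
        (measurable_fst.comp measurable_fst).prodMk measurable_snd
      have h3 : Measurable (fun p : (ℂ × ℂ) × ℂ => (p.2, p.1.2)) :=
        measurable_snd.prodMk (measurable_snd.comp measurable_fst)
      exact ((hK f).comp h2).mul ((ih (f w)).comp h3)
    exact h1.lintegral_prod_right'

/-- facts on the kernels of one block -/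
structure KF1 (u : Fin 3 → ℂ) (h : Fin 3 → ℝ) (a : ℝ) : Prop where
  pos : 0 < a
  meas : ∀ f, Measurable (fun p : ℂ × ℂ => KO u h f a p.1 p.2)
  nn : ∀ f x y, 0 ≤ KO u h f a x y
  sum : ∀ x y, ∑ f : Lb, KO u h f a x y = G a (x - y)

/-- the kernels of one block, with values in the extended half-line -/
@[irreducible] noncomputable def KE (u : Fin 3 → ℂ) (h : Fin 3 → ℝ) (a : ℝ) (f : Lb) (x y : ℂ) : ℝ≥0∞ :=
  ENNReal.ofReal (KO u h f a x y)

theorem KF1.hK {u : Fin 3 → ℂ} {h : Fin 3 → ℝ} {a : ℝ} (H : KF1 u h a) (f : Lb) :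
    Measurable (fun p : ℂ × ℂ => KE u h a f p.1 p.2) := by
  unfold KE
  exact (H.meas f).ennreal_ofReal

theorem KF1.hK1 {u : Fin 3 → ℂ} {h : Fin 3 → ℝ} {a : ℝ} (H : KF1 u h a) (f : Lb) (z : ℂ) :
    Measurable (fun y => KE u h a f z y) := by
  have h0 : Measurable (fun y : ℂ => (z, y)) := measurable_const.prodMk measurable_id
  exact (H.hK f).comp h0

theorem KF1.hG {u : Fin 3 → ℂ} {h : Fin 3 → ℝ} {a : ℝ} (H : KF1 u h a) (x y : ℂ) :
    ∑ f : Lb, KE u h a f x y = ENNReal.ofReal (G a (x - y)) := by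
  unfold KE
  rw [← ENNReal.ofReal_sum_of_nonneg fun f _ => H.nn f x y, H.sum]

theorem lint_G {s : ℝ} (hs : 0 < s) (x : ℂ) : ∫⁻ y, ENNReal.ofReal (G s (x - y)) = 1 := by
  rw [lintegral_sub_left_eq_self (fun z => ENNReal.ofReal (G s z)) x,
    ← ofReal_integral_eq_lintegral_ofReal (H62T.H8.G_integrable hs)
    (Eventually.of_forall fun z => H62T.H8.G_nonneg hs z), H62T.H8.G_integral hs,
    ENNReal.ofReal_one]

theorem KF1.eu_le0 {u : Fin 3 → ℂ} {h : Fin 3 → ℝ} {a : ℝ} (H : KF1 u h a)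
    (w : Wd) (z x : ℂ) : EU (KE u h a) 0 w z x ≤ ENNReal.ofReal ((4 * Real.pi * a)⁻¹) := by
  unfold EU
  refine le_trans (b := ∑ f : Lb, KE u h a f z x) ?_ ?_
  · refine Finset.sum_le_sum fun f _ => ?_
    by_cases hf : f w = em
    · rw [if_pos hf]
    · rw [if_neg hf]
      exact zero_le
  · rw [H.hG]
    exact ENNReal.ofReal_le_ofReal (H62T.H8.G_le H.pos _)

theorem KF1.sum_int {u : Fin 3 → ℂ} {h : Fin 3 → ℝ} {a : ℝ} (H : KF1 u h a) (z : ℂ) (c : ℝ≥0∞) :
    ∑ f : Lb, ∫⁻ y, KE u h a f z y * c = c := by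
  have h1 : ∀ f, Measurable (fun y => KE u h a f z y) := fun f => H.hK1 f z
  have h2 : ∀ f : Lb, ∫⁻ y, KE u h a f z y * c = (∫⁻ y, KE u h a f z y) * c := fun f =>
    lintegral_mul_const _ (h1 f)
  simp_rw [h2]
  rw [← Finset.sum_mul, ← lintegral_finsetSum _ fun f _ => h1 f]
  simp_rw [H.hG]
  rw [lint_G H.pos, one_mul]

theorem KF1.eu_le {u : Fin 3 → ℂ} {h : Fin 3 → ℝ} {a : ℝ} (H : KF1 u h a) :
    ∀ (k : ℕ) (w : Wd) (z x : ℂ),
      EU (KE u h a) k w z x ≤ ENNReal.ofReal ((4 * Real.pi * a)⁻¹) := by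
  intro k
  induction k with
  | zero => exact fun w z x => H.eu_le0 w z x
  | succ k ih =>
    intro w z x
    rw [← H.sum_int z (ENNReal.ofReal ((4 * Real.pi * a)⁻¹))]
    unfold EU
    refine Finset.sum_le_sum fun f _ => ?_
    refine lintegral_mono ?_
    intro y
    exact mul_le_mul_right (ih (f w) y x) _

theorem KF1.eu_ne {u : Fin 3 → ℂ} {h : Fin 3 → ℝ} {a : ℝ} (H : KF1 u h a)
    (k : ℕ) (w : Wd) (z x : ℂ) : EU (KE u h a) k w z x ≠ ⊤ :=
  ((H.eu_le k w z x).trans_lt ENNReal.ofReal_lt_top).ne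

theorem KF1.uo0 {u : Fin 3 → ℂ} {h : Fin 3 → ℝ} {a : ℝ} (H : KF1 u h a)
    (w : Wd) (z x : ℂ) : UO u h a 0 w z x = (EU (KE u h a) 0 w z x).toReal := by
  unfold EU UO
  have h1 : ∀ f ∈ (Finset.univ : Finset Lb), (if f w = em then KE u h a f z x else 0) ≠ ⊤ := by
    intro f _
    by_cases hf : f w = em
    · rw [if_pos hf]
      unfold KE
      exact ENNReal.ofReal_ne_top
    · rw [if_neg hf]
      exact ENNReal.zero_ne_top
  rw [ENNReal.toReal_sum h1]
  refine Finset.sum_congr rfl fun f _ => ?_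
  by_cases hf : f w = em
  · rw [if_pos hf, if_pos hf]
    unfold KE
    rw [ENNReal.toReal_ofReal (H.nn f z x)]
  · rw [if_neg hf, if_neg hf, ENNReal.toReal_zero]

theorem KF1.uo1 {u : Fin 3 → ℂ} {h : Fin 3 → ℝ} {a : ℝ} (H : KF1 u h a) (k : ℕ)
    (ih : ∀ (w : Wd) (z x : ℂ), UO u h a k w z x = (EU (KE u h a) k w z x).toReal)
    (f : Lb) (w : Wd) (z x : ℂ) : ∫ y, KO u h f a z y * UO u h a k w y x
      = (∫⁻ y, KE u h a f z y * EU (KE u h a) k w y x).toReal := by
  rw [← integral_toReal]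
  · refine integral_congr_ae (Eventually.of_forall fun y => ?_)
    change _ = (KE u h a f z y * EU (KE u h a) k w y x).toReal
    rw [ENNReal.toReal_mul, ← ih]
    unfold KE
    rw [ENNReal.toReal_ofReal (H.nn f z y)]
  · have h3 : Measurable (fun y => KE u h a f z y) := H.hK1 f z
    have h0 : Measurable (fun y : ℂ => (y, x)) := measurable_id.prodMk measurable_const
    have h4 : Measurable (fun y => EU (KE u h a) k w y x) := (eu_meas H.hK k w).comp h0
    exact (h3.mul h4).aemeasurable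
  · refine Eventually.of_forall fun y => ?_
    refine ENNReal.mul_lt_top ?_ (H.eu_ne k w y x).lt_top
    unfold KE
    exact ENNReal.ofReal_lt_top

theorem KF1.uo {u : Fin 3 → ℂ} {h : Fin 3 → ℝ} {a : ℝ} (H : KF1 u h a) :
    ∀ (k : ℕ) (w : Wd) (z x : ℂ), UO u h a k w z x = (EU (KE u h a) k w z x).toReal := by
  intro k
  induction k with
  | zero => exact fun w z x => H.uo0 w z x
  | succ k ih =>
    intro w z x
    have h0 : EU (KE u h a) (k + 1) w z x ≠ ⊤ := H.eu_ne (k + 1) w z x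
    have h1 : UO u h a (k + 1) w z x = ∑ f : Lb, ∫ y, KO u h f a z y * UO u h a k (f w) y x := rfl
    rw [h1]
    unfold EU at h0 ⊢
    have h2 : ∀ f ∈ (Finset.univ : Finset Lb),
        ∫⁻ y, KE u h a f z y * EU (KE u h a) k (f w) y x ≠ ⊤ := fun f _ =>
      (ENNReal.sum_lt_top.1 (lt_top_iff_ne_top.2 h0) f (Finset.mem_univ f)).ne
    rw [ENNReal.toReal_sum h2]
    refine Finset.sum_congr rfl fun f _ => ?_
    exact H.uo1 k ih f (f w) z x

/-- the cut, first part -/
noncomputable def cutp (p : ℂ × ℂ) : ℝ := if p.2.re < 0 ∧ ¬ p.1.re < 0 then 1 else 0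

/-- the cut, second part -/
noncomputable def cutm (p : ℂ × ℂ) : ℝ := if p.1.re < 0 ∧ ¬ p.2.re < 0 then 1 else 0

theorem cut_eq (x y : ℂ) : c0 y - c0 x = cutp (x, y) - cutm (x, y) := by
  unfold c0 cutp cutm
  by_cases h1 : y.re < 0 <;> by_cases h2 : x.re < 0 <;> simp [h1, h2]

theorem meas_left1 : MeasurableSet {p : ℂ × ℂ | p.1.re < 0} :=
  measurableSet_lt (Complex.measurable_re.comp measurable_fst) measurable_const

theorem meas_left2 : MeasurableSet {p : ℂ × ℂ | p.2.re < 0} :=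
  measurableSet_lt (Complex.measurable_re.comp measurable_snd) measurable_const

theorem cutp_meas : Measurable cutp :=
  Measurable.ite (meas_left2.inter meas_left1.compl) measurable_const measurable_const

theorem cutm_meas : Measurable cutm :=
  Measurable.ite (meas_left1.inter meas_left2.compl) measurable_const measurable_const

theorem cutp_nn (p : ℂ × ℂ) : 0 ≤ cutp p := by
  unfold cutp; split_ifs <;> norm_num

theorem cutm_nn (p : ℂ × ℂ) : 0 ≤ cutm p := by
  unfold cutm; split_ifs <;> norm_num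

theorem cutp_le (p : ℂ × ℂ) : cutp p ≤ 1 := by
  unfold cutp; split_ifs <;> norm_num

theorem cutm_le (p : ℂ × ℂ) : cutm p ≤ 1 := by
  unfold cutm; split_ifs <;> norm_num

theorem fo_iff (k : ℕ) [NeZero (k + 2)] (A : Fin (k + 2) → Lb) :
    FO A 0 ↔ (List.ofFn fun i : Fin (k + 1) => A i.succ).foldl (fun v f => f v) w012 = em := by
  unfold FO
  have : (fun i : Fin (k + 2 - 1) => A (0 + Fin.ofNat (k + 2) (i.1 + 1)))
      = fun i : Fin (k + 1) => A i.succ := by
    funext i
    congr 1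
    rw [zero_add]
    ext
    have := i.2
    simp only [Fin.ofNat, Fin.val_succ]
    exact Nat.mod_eq_of_lt (by omega)
  rw [this]

open Classical in
theorem key {u : Fin 3 → ℂ} {h : Fin 3 → ℝ} {a : ℝ} (H : KF1 u h a) (k : ℕ)
    (hfin : ∀ A : Fin (k + 2) → Lb, ∫⁻ x : Fin (k + 2) → ℂ,
      ENNReal.ofReal (if FO A 0 then wO u h a x A else 0) ≠ ⊤) {ψ : ℂ × ℂ → ℝ}
    (hψ : Measurable ψ) (h0 : ∀ p, 0 ≤ ψ p) (h1 : ∀ p, ψ p ≤ 1) :
    (∀ A : Fin (k + 2) → Lb, Integrable fun x : Fin (k + 2) → ℂ =>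
      ψ (x 0, x 1) * (if FO A 0 then wO u h a x A else 0)) ∧
    Integrable (fun p : ℂ × ℂ => ψ p * (G a (p.1 - p.2) * UO u h a k w012 p.2 p.1)) ∧
    ∑ A : Fin (k + 2) → Lb, ∫ x : Fin (k + 2) → ℂ,
      ψ (x 0, x 1) * (if FO A 0 then wO u h a x A else 0)
      = ∫ p : ℂ × ℂ, ψ p * (G a (p.1 - p.2) * UO u h a k w012 p.2 p.1) := by
  have hw0 : ∀ (x : Fin (k + 2) → ℂ) (A : Fin (k + 2) → Lb), 0 ≤ wO u h a x A := fun x A =>
    Finset.prod_nonneg fun j _ => H.nn _ _ _
  have hw : ∀ (x : Fin (k + 2) → ℂ) (A : Fin (k + 2) → Lb),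
      ENNReal.ofReal (wO u h a x A) = ∏ j, KE u h a (A j) (x j) (x (j + 1)) := fun x A => by
    unfold wO KE
    exact ENNReal.ofReal_prod_of_nonneg fun j _ => H.nn _ _ _
  have hg0 : ∀ (x : Fin (k + 2) → ℂ) (A : Fin (k + 2) → Lb),
      0 ≤ (if FO A 0 then wO u h a x A else 0) := fun x A => by
    split_ifs
    · exact hw0 x A
    · exact le_rfl
  have hgm : ∀ A : Fin (k + 2) → Lb,
      Measurable (fun x : Fin (k + 2) → ℂ => (if FO A 0 then wO u h a x A else 0)) := by
    intro A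
    refine Measurable.ite (MeasurableSet.const _) ?_ measurable_const
    unfold wO
    refine Finset.measurable_fun_prod _ fun j _ => ?_
    have h6 : Measurable (fun x : Fin (k + 2) → ℂ => (x j, x (j + 1))) :=
      (measurable_pi_apply j).prodMk (measurable_pi_apply (j + 1))
    exact (H.meas (A j)).comp h6
  have hψm : Measurable (fun x : Fin (k + 2) → ℂ => ψ (x 0, x 1)) :=
    hψ.comp ((measurable_pi_apply 0).prodMk (measurable_pi_apply 1))
  have hm : ∀ A : Fin (k + 2) → Lb, Measurable (fun x : Fin (k + 2) → ℂ =>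
      ψ (x 0, x 1) * (if FO A 0 then wO u h a x A else 0)) := fun A => hψm.mul (hgm A)
  have hf : ∀ A : Fin (k + 2) → Lb, ∫⁻ x : Fin (k + 2) → ℂ,
      ENNReal.ofReal (ψ (x 0, x 1) * (if FO A 0 then wO u h a x A else 0)) ≠ ⊤ := by
    intro A
    refine ne_top_of_le_ne_top (hfin A) ?_
    refine lintegral_mono ?_
    intro x
    exact ENNReal.ofReal_le_ofReal (mul_le_of_le_one_left (hg0 x A) (h1 _))
  have hsum : ∑ A : Fin (k + 2) → Lb, ∫⁻ x : Fin (k + 2) → ℂ,
      ENNReal.ofReal (ψ (x 0, x 1) * (if FO A 0 then wO u h a x A else 0))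
      = ∫⁻ p : ℂ × ℂ, ENNReal.ofReal (ψ p * (G a (p.1 - p.2) * UO u h a k w012 p.2 p.1)) := by
    have e1 := main H.hK (hψ.ennreal_ofReal) k w012
    refine Eq.trans ?_ (e1.trans ?_)
    · refine Finset.sum_congr rfl fun A _ => lintegral_congr fun x => ?_
      rw [ENNReal.ofReal_mul (h0 _)]
      congr 1
      by_cases hA : FO A 0
      · rw [if_pos hA, if_pos ((fo_iff k A).1 hA), hw]
      · rw [if_neg hA, if_neg (fun h => hA ((fo_iff k A).2 h)), ENNReal.ofReal_zero]
    · refine lintegral_congr fun p => ?_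
      rw [ENNReal.ofReal_mul (h0 _), ENNReal.ofReal_mul (H62T.H8.G_nonneg H.pos _), H.hG, H.uo,
        ENNReal.ofReal_toReal (H.eu_ne _ _ _ _)]
  have hnn : ∀ p : ℂ × ℂ, 0 ≤ ψ p * (G a (p.1 - p.2) * UO u h a k w012 p.2 p.1) := fun p => by
    refine mul_nonneg (h0 p) (mul_nonneg (H62T.H8.G_nonneg H.pos _) ?_)
    rw [H.uo]
    exact ENNReal.toReal_nonneg
  have hmU : Measurable (fun p : ℂ × ℂ => ψ p * (G a (p.1 - p.2) * UO u h a k w012 p.2 p.1)) := by
    refine hψ.mul (((H62T.H8.G_meas a).comp (measurable_fst.sub measurable_snd)).mul ?_)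
    have e2 : (fun p : ℂ × ℂ => UO u h a k w012 p.2 p.1)
        = fun p : ℂ × ℂ => (EU (KE u h a) k w012 p.2 p.1).toReal := by
      funext p
      rw [H.uo]
    rw [e2]
    exact ((eu_meas H.hK k w012).comp (measurable_snd.prodMk measurable_fst)).ennreal_toReal
  have hS : ∑ A : Fin (k + 2) → Lb, ∫⁻ x : Fin (k + 2) → ℂ,
      ENNReal.ofReal (ψ (x 0, x 1) * (if FO A 0 then wO u h a x A else 0)) < ⊤ :=
    ENNReal.sum_lt_top.2 fun A _ => lt_top_iff_ne_top.2 (hf A)
  refine ⟨fun A => ⟨(hm A).aestronglyMeasurable, ?_⟩, ⟨hmU.aestronglyMeasurable, ?_⟩, ?_⟩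
  · rw [hasFiniteIntegral_iff_ofReal (Eventually.of_forall fun x => mul_nonneg (h0 _) (hg0 x A))]
    exact lt_top_iff_ne_top.2 (hf A)
  · rw [hasFiniteIntegral_iff_ofReal (Eventually.of_forall hnn), ← hsum]
    exact hS
  · rw [integral_eq_lintegral_of_nonneg_ae (Eventually.of_forall hnn) hmU.aestronglyMeasurable,
      ← hsum, ENNReal.toReal_sum fun A _ => hf A]
    refine Finset.sum_congr rfl fun A _ => ?_
    rw [integral_eq_lintegral_of_nonneg_ae
      (Eventually.of_forall fun x => mul_nonneg (h0 _) (hg0 x A)) (hm A).aestronglyMeasurable]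

open Classical in
/-- TUI -/
theorem tui (_hlst : LstStatement) (hord : OrdStatement) (hcmb : CmbStatement) :
    TuiStatement := by
  intro u h hu n _ t hn ht hMO
  obtain ⟨k, rfl⟩ : ∃ k, n = k + 2 := ⟨n - 2, by omega⟩
  have ha : 0 < t / ((k + 2 : ℕ) : ℝ) := by positivity
  obtain ⟨hm, hrest⟩ := hord u h hu
  set a : ℝ := t / ((k + 2 : ℕ) : ℝ) with hadef
  have H : KF1 u h a := by
    refine ⟨ha, fun f => ?_, fun f x y => (hrest a x y ha).2.1 f, fun x y =>
      (hrest a x y ha).2.2.2.1⟩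
    have h6 : Measurable (fun p : ℂ × ℂ => (a, p.1, p.2)) :=
      measurable_const.prodMk (measurable_fst.prodMk measurable_snd)
    exact (hm f).comp h6
  have hRz : ∀ f x y, KO u h f a x y ≠ 0 → Rz f := fun f x y => (hrest a x y ha).2.2.1 f
  have hfin : ∀ A : Fin (k + 2) → Lb, ∫⁻ x : Fin (k + 2) → ℂ,
      ENNReal.ofReal (if FO A 0 then wO u h a x A else 0) ≠ ⊤ := by
    intro A
    unfold MO at hMO
    have h1 := (ENNReal.sum_lt_top.1 (lt_top_iff_ne_top.2 hMO) A (Finset.mem_univ A))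
    refine ne_top_of_le_ne_top h1.ne ?_
    refine lintegral_mono ?_
    intro x
    change ENNReal.ofReal (if FO A 0 then wO u h a x A else 0)
      ≤ if Lp (cp A) then ENNReal.ofReal (wO u h a x A) else 0
    by_cases hA : FO A 0
    · rw [if_pos hA]
      by_cases hR : ∀ j, Rz (A j)
      · have hL : Lp (cp A) := (hcmb (k + 2) A hR).2.2.1 0 hA
        rw [if_pos hL]
      · push Not at hR
        obtain ⟨j, hj⟩ := hR
        have h2 : wO u h a x A = 0 := by
          unfold wO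
          refine Finset.prod_eq_zero (Finset.mem_univ j) ?_
          by_contra hne
          exact hj (hRz _ _ _ hne)
        rw [h2, ENNReal.ofReal_zero]
        exact zero_le
    · rw [if_neg hA, ENNReal.ofReal_zero]
      exact zero_le
  obtain ⟨ip1, ip2, ip3⟩ := key H k hfin cutp_meas cutp_nn cutp_le
  obtain ⟨im1, im2, im3⟩ := key H k hfin cutm_meas cutm_nn cutm_le
  have hTI : TI (k + 2) u h t = (∑ A : Fin (k + 2) → Lb, ∫ x : Fin (k + 2) → ℂ,
      cutp (x 0, x 1) * (if FO A 0 then wO u h a x A else 0)) - ∑ A : Fin (k + 2) → Lb,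
        ∫ x : Fin (k + 2) → ℂ, cutm (x 0, x 1) * (if FO A 0 then wO u h a x A else 0) := by
    rw [← Finset.sum_sub_distrib]
    unfold TI
    refine Finset.sum_congr rfl fun A _ => ?_
    rw [← integral_sub (ip1 A) (im1 A)]
    refine integral_congr_ae (Eventually.of_forall fun x => ?_)
    change (c0 (x 1) - c0 (x 0)) * (if FO A 0 then wO u h a x A else 0) = _
    rw [cut_eq, sub_mul]
  have hTU : TU (k + 2) u h t = (∫ p : ℂ × ℂ, cutp p * (G a (p.1 - p.2) *
      UO u h a k w012 p.2 p.1)) - ∫ p : ℂ × ℂ, cutm p * (G a (p.1 - p.2) *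
        UO u h a k w012 p.2 p.1) := by
    rw [← integral_sub ip2 im2]
    unfold TU
    refine integral_congr_ae (Eventually.of_forall fun p => ?_)
    change (c0 p.2 - c0 p.1) * G a (p.1 - p.2) * UO u h a (k + 2 - 2) w012 p.2 p.1 = _
    rw [cut_eq, Nat.add_sub_cancel]
    ring
  rw [hTI, hTU, ip3, im3]

end Pool.Agent.XQ.GI.H7
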